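import Pool.Agent.Y105.HG.Fun

/-!
# MP_877d49_an, Q1: an equivalent `s`-norm on `L_p[0,1]` for which the Haar system is 1-greedy

For every `1 < p < ∞` and every `0 < s < 1`, with real or complex scalars.
-/

set_option autoImplicit false

namespace Pool.Agent.Results.MP_877d49_an.SNormOneGreedy

open Pool.Agent.Y105.HG

/-- `𝕜` is `ℝ` or `ℂ`, `1 < p < ∞` and `0 < s < 1`.  `haarp p i` is the Haar function `h_i` normalised
in `L_p` (`i = none`: the constant `1`; `i = some ⟨n, k⟩`: the Haar function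
`|I| ^ (-1/p) (1_{I⁻} - 1_{I⁺})` of `I = [k / 2 ^ n, (k + 1) / 2 ^ n)`) and
`haarCoef p i f = (∫ f h_i) / (∫ h_i²)` is the coefficient of `f`.  There is an `s`-norm `N` on
`L_p[0,1]`, equivalent to `‖·‖_p`, with `N (f - G_A f) ≤ N (f - g)` for every `f`, every greedy set `A`
of `f` and every `g = ∑_{i ∈ B} b_i h_i` with `|B| ≤ |A|`. -/
theorem result (𝕜 : Type) [RCLike 𝕜] (p : ℝ) (hp : 1 < p) (s : ℝ) (hs0 : 0 < s) (hs1 : s < 1) :
    HaarSystem 𝕜 p ∧ ∃ N : (ℝ → 𝕜) → ℝ, EquivSNorm p s N ∧ OneGreedy p N :=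
  ⟨haarSystem 𝕜 p hp, mainS 𝕜 p hp s hs0 hs1⟩

end Pool.Agent.Results.MP_877d49_an.SNormOneGreedy
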